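import Pool.Agent.Helper54.BN.E2
import Pool.Agent.Helper38.BN.IntP
import Pool.Agent.Helper38.BN.IntC

/-!
# Project BN, block B10, part 3: the classes of `ψ z_i` and `ψ w`
-/

namespace Pool.Agent.Helper54.BN

open Pool.Agent.Helper38.BN

variable {k : ℕ}

/-- piece `BNX-4`.
Proof. By `fcl hk` it is enough that for `h ∈ PH k` there is `y` with `y * ψ x * y⁻¹ =
Chi k h (ψ x)`. Let `h' = φ.symm h`: `piH k h' = piH k (φ h') = piH k h = 1`, so `h' ∈ PH k`, and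
`Chi k h (ψ x) = Chi k (φ h') (ψ x) = ψ (Chi k h' x)`. By `chi_PA`, `Chi k h' x = c * x * c⁻¹` for
`x = zF i` and for `x = wF k`. -/
theorem psi_cl (hk : 2 ≤ k) (φ : MulAut (HB k)) (hπ : ∀ x, piH k (φ x) = piH k x)
    (ψ : MulAut (F k)) (he : ∀ g x, ψ (Chi k g x) = Chi k (φ g) (ψ x)) {x : F k}
    (hx : (∃ i, i ≤ k ∧ x = zF i) ∨ x = wF k) :
    ∃ (y : F k) (n : ℤ), (∃ i, i ≤ k ∧ y * ψ x * y⁻¹ = zF i ^ n) ∨
      y * ψ x * y⁻¹ = wF k ^ n := by
  refine fcl hk fun h hh => ?_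
  have h1 : φ (φ.symm h) = h := MulEquiv.apply_symm_apply _ _
  have hh' : φ.symm h ∈ PH k := by
    have h2 := hπ (φ.symm h)
    rw [h1] at h2
    exact h2.symm.trans hh
  obtain ⟨hz, hw⟩ : Chi k (φ.symm h) ∈ PAc k := chi_PA hh'
  have h3 : ∃ c, Chi k (φ.symm h) x = c * x * c⁻¹ := by
    rcases hx with ⟨i, hi, rfl⟩ | rfl
    · exact hz i hi
    · exact hw
  obtain ⟨c, hc⟩ := h3
  refine ⟨ψ c, ?_⟩
  have h4 := he (φ.symm h) x
  rw [h1, hc, map_mul, map_mul, map_inv] at h4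
  exact h4

/-- piece `BNX-5`: the matrix of `ψ` on the abelianization is invariant.
Proof. By `chi_z_conj`, `Chi g (zF i) = c * zF (π g i) * c⁻¹`. By `exF_chi` for `φ g`, `piH (φ g) =
piH g` and `he`: `exF j (ψ (zF i)) = exF (π g j) (Chi (φ g) (ψ (zF i))) = exF (π g j)
(ψ (Chi g (zF i))) = exF (π g j) (ψ c * ψ (zF (π g i)) * (ψ c)⁻¹)`, `exF_conj`. -/
theorem M_inv (φ : MulAut (HB k)) (hπ : ∀ x, piH k (φ x) = piH k x)
    (ψ : MulAut (F k)) (he : ∀ g x, ψ (Chi k g x) = Chi k (φ g) (ψ x)) (g : HB k) {i : ℕ} (j : ℕ)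
    (hi : i ≤ k) : exF k (piH k g j) (ψ (zF (piH k g i))) = exF k j (ψ (zF i)) := by
  obtain ⟨-, c, hc⟩ := chi_z_conj g hi
  have h1 : ψ (c * zF (piH k g i) * c⁻¹) = ψ c * ψ (zF (piH k g i)) * (ψ c)⁻¹ := by
    rw [map_mul, map_mul, map_inv]
  rw [← exF_chi (φ g) j (ψ (zF i)), hπ, ← he, hc, h1, exF_conj]

/-- piece `BNX-5`: `ψ z_i` is conjugate to a power of `z_i`.
Proof. `psi_cl`. First case: `ψ z_i` is conjugate to `z_j^n`. If `j ≠ i`, take `l ≤ k`, `l ≠ i, j`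
and (`piH_two`) `g` with `π g i = i`, `π g j = l`: `exF j (ψ z_i) = exF l (ψ z_i)` by `M_inv`; the
left side is `ofAdd n`, the right side `1`. So `n = 0`, `ψ z_i = 1`, `z_i = 1`, but
`exF i z_i ≠ 1`. So `j = i`. Second case: `ψ z_i` is conjugate to `w^n`: `exF l (ψ z_i) = ofAdd n`
for all `l ≤ k` (`exF_w`), hence by `M_inv` (`π g i = i'`, `π g l = l'`; `i' = l'` too: for
`i' = l'` take the pair `(i, i)`) `exF l' (ψ z_{i'}) = ofAdd n` for all `i', l' ≤ k`. So the homs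
`exF 0 ∘ ψ` and `exF 1 ∘ ψ` agree on the generators; apply them to `ψ⁻¹ z_0`:
`ofAdd 1 = 1`, contradiction. -/
theorem psi_z (hk : 2 ≤ k) (φ : MulAut (HB k)) (hπ : ∀ x, piH k (φ x) = piH k x)
    (ψ : MulAut (F k)) (he : ∀ g x, ψ (Chi k g x) = Chi k (φ g) (ψ x)) {i : ℕ} (hi : i ≤ k) :
    ∃ (y : F k) (n : ℤ), y * ψ (zF i) * y⁻¹ = zF i ^ n := by
  have other : ∀ a : ℕ, ∃ b, b ≤ k ∧ b ≠ a := fun a => by
    by_cases h : a = 0
    · exact ⟨1, by omega, by omega⟩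
    · exact ⟨0, by omega, fun h' => h h'.symm⟩
  have hone : (Multiplicative.ofAdd (1 : ℤ)) ≠ 1 := by decide
  obtain ⟨y, n, h⟩ := psi_cl hk φ hπ ψ he (x := zF i) (Or.inl ⟨i, hi, rfl⟩)
  rcases h with ⟨j, hj, h⟩ | h
  · by_cases hji : j = i
    · subst hji
      exact ⟨y, n, h⟩
    · exfalso
      obtain ⟨l, hl, hli, hlj⟩ : ∃ l, l ≤ k ∧ l ≠ i ∧ l ≠ j := by
        by_cases h0 : 0 ≠ i ∧ 0 ≠ j
        · exact ⟨0, by omega, h0⟩
        · by_cases h1 : 1 ≠ i ∧ 1 ≠ j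
          · exact ⟨1, by omega, h1⟩
          · exact ⟨2, hk, by omega, by omega⟩
      obtain ⟨g, hg1, hg2⟩ := piH_two hk hi hj hi hl (Ne.symm hji) hli.symm
      have hM := M_inv φ hπ ψ he g j hi
      rw [hg1, hg2] at hM
      have e1 : ∀ t, exF k t (ψ (zF i)) = (exF k t (zF j)) ^ n := fun t => by
        rw [← exF_conj t y (ψ (zF i)), h, map_zpow]
      rw [e1, e1, exF_z _ hj, exF_z _ hj, if_neg (Ne.symm hlj), if_pos rfl, one_zpow] at hM
      have hn : n = 0 := by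
        have h3 := congrArg Multiplicative.toAdd hM
        rw [toAdd_zpow] at h3
        simpa using h3.symm
      rw [hn, zpow_zero] at h
      have h4 : ψ (zF i) = 1 := by
        have h5 : ψ (zF i) = y⁻¹ * (y * ψ (zF i) * y⁻¹) * y := by group
        rw [h5, h]
        group
      have h6 : (zF i : F k) = 1 := by
        have := ψ.injective (a₁ := zF i) (a₂ := 1) (by rw [h4, map_one])
        exact this
      have h7 := exF_z i hi
      rw [h6, map_one, if_pos rfl] at h7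
      exact hone h7.symm
  · exfalso
    have e1 : ∀ t, t ≤ k → exF k t (ψ (zF i)) = (Multiplicative.ofAdd 1) ^ n := fun t ht => by
      rw [← exF_conj t y (ψ (zF i)), h, map_zpow, exF_w ht]
    have e2 : ∀ i' l', i' ≤ k → l' ≤ k →
        exF k l' (ψ (zF i')) = (Multiplicative.ofAdd 1) ^ n := by
      intro i' l' hi' hl'
      by_cases hil : l' = i'
      · subst hil
        obtain ⟨j, hj, hji⟩ := other i
        obtain ⟨j', hj', hji'⟩ := other l'
        obtain ⟨g, hg1, hg2⟩ := piH_two hk hi hj hi' hj' hji.symm hji'.symm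
        have hM := M_inv φ hπ ψ he g i hi
        rw [hg1] at hM
        rw [hM, e1 i hi]
      · obtain ⟨l, hl, hli⟩ := other i
        obtain ⟨g, hg1, hg2⟩ := piH_two hk hi hl hi' hl' hli.symm (Ne.symm hil)
        have hM := M_inv φ hπ ψ he g l hi
        rw [hg1, hg2] at hM
        rw [hM, e1 l hl]
    have e3 : (exF k 0).comp ψ.toMonoidHom = (exF k 1).comp ψ.toMonoidHom := by
      apply homF_ext
      intro i' hi'
      show exF k 0 (ψ (zF i')) = exF k 1 (ψ (zF i'))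
      rw [e2 i' 0 hi' (by omega), e2 i' 1 hi' (by omega)]
    have e4 := DFunLike.congr_fun e3 (ψ.symm (zF 0))
    have e5 : exF k 0 (ψ (ψ.symm (zF 0))) = exF k 1 (ψ (ψ.symm (zF 0))) := e4
    rw [MulEquiv.apply_symm_apply, exF_z 0 (by omega), exF_z 1 (by omega), if_pos rfl,
      if_neg (by omega)] at e5
    exact hone e5

/-- piece `BNX-6`: the sign of `ψ`.
Proof. `psi_z`: `ψ z_i` is conjugate to `z_i^(n i)`. By `M_inv` with `π g 0 = i` (`piH_two` with any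
second pair), `ofAdd (n i) = exF i (ψ z_i) = exF 0 (ψ z_0) = ofAdd (n 0)`. With `n := n 0`:
`exF 0 (ψ x) = (exF 0 x)^n` for all `x` (`homF_ext`; for `i ≠ 0` both sides are `1`); at
`x = ψ⁻¹ z_0`: `n ∣ 1`. So `η := n` is `1` or `-1`. For `w`: `exF l (ψ w) = ofAdd η` for all
`l ≤ k` (as `exF l (ψ x) = (exF l x)^η` for all `x`), `psi_cl` for `w`: if `ψ w` is conjugate to
`z_j^n`, take `l ≤ k`, `l ≠ j`: `1 = ofAdd η`, contradiction; if it is conjugate to `w^n`, then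
`n = η` by `exF 0`. -/
theorem psi_eta (hk : 2 ≤ k) (φ : MulAut (HB k)) (hπ : ∀ x, piH k (φ x) = piH k x)
    (ψ : MulAut (F k)) (he : ∀ g x, ψ (Chi k g x) = Chi k (φ g) (ψ x)) :
    ∃ η : ℤ, (η = 1 ∨ η = -1) ∧ (∀ i, i ≤ k → ∃ y, ψ (zF i) = y * zF i ^ η * y⁻¹) ∧
      ∃ y, ψ (wF k) = y * wF k ^ η * y⁻¹ := by
  have hz : ∀ i, ∃ (n : ℤ) (y : F k), i ≤ k → y * ψ (zF i) * y⁻¹ = zF i ^ n := by
    intro i
    by_cases hi : i ≤ k
    · obtain ⟨y, n, h⟩ := psi_z hk φ hπ ψ he hi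
      exact ⟨n, y, fun _ => h⟩
    · exact ⟨0, 1, fun h => absurd h hi⟩
  choose n y hy using hz
  have hex : ∀ i l, i ≤ k → exF k l (ψ (zF i)) = exF k l (zF i) ^ n i := by
    intro i l hi
    rw [← exF_conj l (y i) (ψ (zF i)), hy i hi, map_zpow]
  have hn : ∀ i, i ≤ k → n i = n 0 := by
    intro i hi
    obtain ⟨j', hj', hij'⟩ : ∃ j', j' ≤ k ∧ i ≠ j' := by
      by_cases h0 : i = 0
      · exact ⟨1, by omega, by omega⟩
      · exact ⟨0, by omega, h0⟩
    obtain ⟨g, hg, -⟩ := piH_two hk (i := 0) (j := 1) (by omega) (by omega) hi hj' (by omega) hij'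
    have h1 := M_inv φ hπ ψ he g (i := 0) 0 (by omega)
    rw [hg, hex i i hi, hex 0 0 (by omega), exF_z i hi, exF_z 0 (by omega), if_pos rfl,
      if_pos rfl, ← ofAdd_zsmul, ← ofAdd_zsmul] at h1
    have h2 := Multiplicative.ofAdd.injective h1
    simpa using h2
  have hall : ∀ (l : ℕ) (x : F k), exF k l (ψ x) = exF k l x ^ n 0 := by
    intro l x
    have h1 : (exF k l).comp ψ.toMonoidHom = (zpowGroupHom (n 0)).comp (exF k l) := by
      apply homF_ext
      intro i hi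
      rw [MonoidHom.comp_apply, MonoidHom.comp_apply]
      show exF k l (ψ (zF i)) = exF k l (zF i) ^ n 0
      rw [hex i l hi, hn i hi]
    exact DFunLike.congr_fun h1 x
  have hunit : n 0 = 1 ∨ n 0 = -1 := by
    have h1 := hall 0 (ψ.symm (zF 0))
    rw [MulEquiv.apply_symm_apply, exF_z 0 (by omega), if_pos rfl] at h1
    have h2 := congrArg Multiplicative.toAdd h1
    rw [toAdd_ofAdd, toAdd_zpow, smul_eq_mul] at h2
    rcases Int.eq_one_or_neg_one_of_mul_eq_one h2.symm with h3 | h3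
    · exact Or.inl h3
    · exact Or.inr h3
  refine ⟨n 0, hunit, fun i hi => ⟨(y i)⁻¹, ?_⟩, ?_⟩
  · rw [← hn i hi, ← hy i hi]
    group
  · have hw : ∀ l, l ≤ k → exF k l (ψ (wF k)) = Multiplicative.ofAdd (n 0) := by
      intro l hl
      rw [hall l, exF_w hl, ← ofAdd_zsmul]
      simp
    obtain ⟨y', m, h1 | h1⟩ := psi_cl hk φ hπ ψ he (x := wF k) (Or.inr rfl)
    · exfalso
      obtain ⟨j, hj, h1⟩ := h1
      obtain ⟨l, hl, hlj⟩ : ∃ l, l ≤ k ∧ j ≠ l := by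
        by_cases h0 : j = 0
        · exact ⟨1, by omega, by omega⟩
        · exact ⟨0, by omega, h0⟩
      have h2 := hw l hl
      rw [← exF_conj l y', h1, map_zpow, exF_z l hj, if_neg hlj, one_zpow] at h2
      have h3 := congrArg Multiplicative.toAdd h2
      rw [toAdd_one, toAdd_ofAdd] at h3
      rcases hunit with h4 | h4 <;> omega
    · have h2 := hw 0 (by omega)
      rw [← exF_conj 0 y', h1, map_zpow, exF_w (by omega), ← ofAdd_zsmul] at h2
      have h3 := Multiplicative.ofAdd.injective h2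
      have h4 : m = n 0 := by simpa using h3
      refine ⟨y'⁻¹, ?_⟩
      rw [← h4, ← h1]
      group

end Pool.Agent.Helper54.BN
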