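import Pool.Agent.Helper38.BN.IntH
import Pool.Agent.Helper38.BN.IntArtin

/-!
# Project BN, block B10, part 4: Artin's theorem and the transvections
-/

namespace Pool.Agent.Helper54.BN

open Pool.Agent.Helper38.BN

variable {k : ℕ}

/-- piece `BNX-7`.
Proof. Let `ψ w = g w g⁻¹` and `ψ1 := MulAut.conj g⁻¹ * ψ`, so `ψ1 w = w` and `ψ1 z_i` is conjugate
to `z_i`. `wF j = wp zF j` (induction, `rfl`) and `wp (fun i => ψ1 (zF i)) j = ψ1 (wp zF j)`, so
`artin k (fun i => ψ1 (zF i))` gives `β ∈ closure (chiA '' …)` with `ψ1 (zF i) = β (zF i)`,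
`ψ1 = β` by `autF_ext`. `closure (chiA '' {j | j < k}) ≤ (Chi k).range` as
`Chi k (aH j) = chiA j` (`liftH_a`). So `β = Chi k b`, `ψ = MulAut.conj g * β =
Chi k (zH k g * b)` (`chi_zH`). -/
theorem psi_inner (ψ : MulAut (F k)) (hz : ∀ i, i ≤ k → ∃ g, ψ (zF i) = g * zF i * g⁻¹)
    (hw : ∃ g, ψ (wF k) = g * wF k * g⁻¹) : ∃ s : HB k, ψ = Chi k s := by
  obtain ⟨g, hg⟩ := hw
  have h1 : ∀ x, (MulAut.conj g⁻¹ * ψ) x = g⁻¹ * ψ x * g := by
    intro x
    rw [MulAut.mul_apply, MulAut.conj_apply, inv_inv]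
  have hwp : ∀ j, (wF j : F k) = wp zF j := by
    intro j
    induction j with
    | zero => rfl
    | succ j ih =>
      change zF (j + 1) * wF j = zF (j + 1) * wp zF j
      rw [ih]
  have hwq : ∀ (f : F k →* F k) (j : ℕ), wp (fun i => f (zF i)) j = f (wp zF j) := by
    intro f j
    induction j with
    | zero => rfl
    | succ j ih =>
      change f (zF (j + 1)) * wp (fun i => f (zF i)) j = f (zF (j + 1) * wp zF j)
      rw [ih, map_mul]
  obtain ⟨β, hβ, hβ1⟩ := artin k (fun i => (MulAut.conj g⁻¹ * ψ) (zF i))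
    (fun i hi => by
      obtain ⟨c, hc⟩ := hz i hi
      refine ⟨i, hi, g⁻¹ * c, ?_⟩
      change (MulAut.conj g⁻¹ * ψ) (zF i) = _
      rw [h1, hc]
      group)
    (by
      have h2 := hwq (MulAut.conj g⁻¹ * ψ).toMonoidHom k
      have h3 : (MulAut.conj g⁻¹ * ψ).toMonoidHom (wp zF k) = wp zF k := by
        change (MulAut.conj g⁻¹ * ψ) (wp zF k) = wp zF k
        rw [← hwp, h1, hg]
        group
      rw [h3] at h2
      exact h2)
  have h4 : MulAut.conj g⁻¹ * ψ = β := autF_ext hβ1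
  have h5 : Subgroup.closure (chiA '' {j | j < k} : Set (MulAut (F k))) ≤ (Chi k).range := by
    rw [Subgroup.closure_le]
    rintro _ ⟨j, hj, rfl⟩
    exact ⟨aH j, liftH_a _ hj⟩
  obtain ⟨b, hb⟩ := h5 hβ
  refine ⟨zH k g * b, ?_⟩
  rw [map_mul, chi_zH, hb, ← h4, ← mul_assoc, ← map_mul, mul_inv_cancel, map_one, one_mul]

/-- piece `BNX-8`: a homomorphism which acts on `F k` as the identity.
Proof. `Chi (h⁻¹ * φ h) = 1`, so by `faithful` there is `e h` with `φ h = h * ζ^(e h)`;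
`e (g h) = e g + e h` as `ζ` is central (`zeH_comm`) and `zeH_pow`. The braid relation
(`(relH k).braid`) gives `e (a_j) = e (a_{j+1})`, so `e (a_j) = l := e (a_0)` for all `j < k`; put
`q := e (d)`. `φ (kap aH j) = kap aH j * ζ^(j l)` for `j ≤ k` (induction), so
`φ ρ = ρ * ζ^(k l + q)` and `φ ζ = ζ * ζ^((k+1)(k l + q))` (`zeH k = (dH * kap aH k)^(k+1)` by
definition: `zeta`, `rho`). -/
theorem tw (φ : HB k →* HB k) (hc : ∀ h, Chi k (φ h) = Chi k h) :
    ∃ l q : ℤ, (∀ j, j < k → φ (aH j) = aH j * zeH k ^ l) ∧ φ dH = dH * zeH k ^ q ∧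
      φ (zeH k) = zeH k ^ (1 + ((k : ℤ) + 1) * ((k : ℤ) * l + q)) := by
  have hcent : ∀ (h : HB k) (n : ℤ), Commute h (zeH k ^ n) := fun h n =>
    (show Commute h (zeH k) from zeH_comm h).zpow_right n
  have hex : ∀ h : HB k, ∃ n : ℤ, φ h = h * zeH k ^ n := by
    intro h
    have h1 : Chi k (h⁻¹ * φ h) = 1 := by rw [map_mul, map_inv, hc, inv_mul_cancel]
    obtain ⟨n, hn⟩ := Subgroup.mem_zpowers_iff.1 (faithful h1)
    exact ⟨n, by rw [hn, mul_inv_cancel_left]⟩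
  choose e he using hex
  have hinj : ∀ x y : ℤ, zeH k ^ x = zeH k ^ y → x = y := by
    intro x y h
    have : zeH k ^ (x - y) = 1 := by rw [zpow_sub, h, mul_inv_cancel]
    have := zeH_pow this
    omega
  have mul3 : ∀ (a b c : HB k) (x y z : ℤ),
      a * zeH k ^ x * (b * zeH k ^ y) * (c * zeH k ^ z) = a * b * c * zeH k ^ (x + y + z) := by
    intro a b c x y z
    have h1 : zeH k ^ x * b = b * zeH k ^ x := (hcent b x).symm.eq
    have h2 : zeH k ^ (x + y) * c = c * zeH k ^ (x + y) := (hcent c (x + y)).symm.eq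
    calc a * zeH k ^ x * (b * zeH k ^ y) * (c * zeH k ^ z)
        = a * (zeH k ^ x * b) * zeH k ^ y * c * zeH k ^ z := by simp only [mul_assoc]
      _ = a * b * (zeH k ^ x * zeH k ^ y) * c * zeH k ^ z := by rw [h1]; simp only [mul_assoc]
      _ = a * b * (zeH k ^ (x + y) * c) * zeH k ^ z := by rw [zpow_add]; simp only [mul_assoc]
      _ = a * b * c * zeH k ^ (x + y + z) := by
          rw [h2, zpow_add _ (x + y) z]; simp only [mul_assoc]
  have hstep : ∀ j, j + 1 < k → e (aH j) = e (aH (j + 1)) := by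
    intro j hj
    have h1 := (relH k).braid j hj
    have h2 := congrArg φ h1
    simp only [map_mul] at h2
    rw [he (aH j), he (aH (j + 1)), mul3, mul3, h1] at h2
    have h3 := hinj _ _ (mul_left_cancel h2)
    omega
  have hall : ∀ j, j < k → e (aH j) = e (aH 0) := by
    intro j
    induction j with
    | zero => intro _; rfl
    | succ j ih =>
      intro hj
      rw [← hstep j hj, ih (by omega)]
  have hkap : ∀ j, j ≤ k → φ (kap aH j) = kap aH j * zeH k ^ ((j : ℤ) * e (aH 0)) := by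
    intro j
    induction j with
    | zero => intro _; simp [kap]
    | succ j ih =>
      intro hj
      rw [kap, map_mul, ih (by omega), he (aH j), hall j (by omega)]
      have h1 : zeH k ^ ((j : ℤ) * e (aH 0)) * aH j = aH j * zeH k ^ ((j : ℤ) * e (aH 0)) :=
        (hcent (aH j) _).symm.eq
      rw [show ((j + 1 : ℕ) : ℤ) * e (aH 0) = (j : ℤ) * e (aH 0) + e (aH 0) by push_cast; ring,
        zpow_add]
      calc kap aH j * zeH k ^ ((j : ℤ) * e (aH 0)) * (aH j * zeH k ^ e (aH 0))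
          = kap aH j * (zeH k ^ ((j : ℤ) * e (aH 0)) * aH j) * zeH k ^ e (aH 0) := by
            simp only [mul_assoc]
        _ = kap aH j * aH j * (zeH k ^ ((j : ℤ) * e (aH 0)) * zeH k ^ e (aH 0)) := by
            rw [h1]; simp only [mul_assoc]
  refine ⟨e (aH 0), e dH, fun j hj => by rw [he (aH j), hall j hj], he dH, ?_⟩
  have hrho : φ (rho k aH dH) = rho k aH dH * zeH k ^ ((k : ℤ) * e (aH 0) + e dH) := by
    unfold rho
    rw [map_mul, hkap k le_rfl, he dH]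
    have h1 : zeH k ^ e dH * kap aH k = kap aH k * zeH k ^ e dH := (hcent (kap aH k) _).symm.eq
    calc dH * zeH k ^ e dH * (kap aH k * zeH k ^ ((k : ℤ) * e (aH 0)))
        = dH * (zeH k ^ e dH * kap aH k) * zeH k ^ ((k : ℤ) * e (aH 0)) := by
          simp only [mul_assoc]
      _ = dH * kap aH k * (zeH k ^ e dH * zeH k ^ ((k : ℤ) * e (aH 0))) := by
          rw [h1]; simp only [mul_assoc]
      _ = dH * kap aH k * zeH k ^ ((k : ℤ) * e (aH 0) + e dH) := by
          rw [← zpow_add, add_comm (e dH)]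
  have hz : zeH k = rho k aH dH ^ (k + 1) := rfl
  calc φ (zeH k) = φ (rho k aH dH) ^ (k + 1) := by rw [hz, map_pow]
    _ = rho k aH dH ^ (k + 1) * (zeH k ^ ((k : ℤ) * e (aH 0) + e dH)) ^ (k + 1) := by
        rw [hrho, (hcent (rho k aH dH) _).mul_pow]
    _ = zeH k ^ (1 + ((k : ℤ) + 1) * ((k : ℤ) * e (aH 0) + e dH)) := by
        rw [← hz, zpow_add (zeH k) 1, zpow_one, ← zpow_natCast, ← zpow_mul]
        congr 2
        push_cast
        ring

/-- piece `BNX-9`.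
Proof. `psi_inner`: `ψ = Chi k s`. Let `φ' h := s⁻¹ * φ h * s` (as a hom). From `he`,
`ψ * Chi g = Chi (φ g) * ψ`, so `Chi (φ' g) = ψ⁻¹ * Chi (φ g) * ψ = Chi g`. Apply `tw` to `φ'`;
`φ' ζ = s⁻¹ * ζ^ε * s = ζ^ε` (`ζ` is central), so `ζ^ε = ζ^(1 + …)` and `zeH_pow` gives the
equation for `ε`. -/
theorem core1 (φ : MulAut (HB k)) {ε : ℤ} (hζ : φ (zeH k) = zeH k ^ ε)
    (ψ : MulAut (F k)) (he : ∀ g x, ψ (Chi k g x) = Chi k (φ g) (ψ x))
    (hz : ∀ i, i ≤ k → ∃ g, ψ (zF i) = g * zF i * g⁻¹) (hw : ∃ g, ψ (wF k) = g * wF k * g⁻¹) :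
    ∃ (s : HB k) (l q : ℤ), ε = 1 + ((k : ℤ) + 1) * ((k : ℤ) * l + q) ∧
      (∀ j, j < k → φ (aH j) = s * (aH j * zeH k ^ l) * s⁻¹) ∧
      φ dH = s * (dH * zeH k ^ q) * s⁻¹ := by
  obtain ⟨s, hs⟩ := psi_inner ψ hz hw
  have hcz : ∀ (n : ℤ) (h : HB k), h * zeH k ^ n = zeH k ^ n * h := fun n h =>
    ((show Commute h (zeH k) from zeH_comm h).zpow_right n).eq
  let φ' : HB k →* HB k := (MulAut.conj s⁻¹).toMonoidHom.comp φ.toMonoidHom
  have hφ' : ∀ h, φ' h = s⁻¹ * φ h * s := by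
    intro h
    show MulAut.conj s⁻¹ (φ h) = _
    rw [MulAut.conj_apply, inv_inv]
  have hc : ∀ h, Chi k (φ' h) = Chi k h := by
    intro h
    have h1 : ψ * Chi k h = Chi k (φ h) * ψ := by
      ext1 x
      exact he h x
    rw [hφ', map_mul, map_mul, map_inv, ← hs, mul_assoc, ← h1, inv_mul_cancel_left]
  obtain ⟨l, q, h1, h2, h3⟩ := tw φ' hc
  have hback : ∀ h, φ h = s * φ' h * s⁻¹ := by
    intro h
    rw [hφ']
    group
  refine ⟨s, l, q, ?_, ?_, ?_⟩
  · rw [hφ', hζ, mul_assoc, ← hcz, inv_mul_cancel_left] at h3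
    have h4 : zeH k ^ (ε - (1 + ((k : ℤ) + 1) * ((k : ℤ) * l + q))) = 1 := by
      rw [zpow_sub, h3, mul_inv_cancel]
    have h5 := zeH_pow h4
    linarith
  · intro j hj
    rw [hback, h1 j hj]
  · rw [hback, h2]

end Pool.Agent.Helper54.BN
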