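import Pool.Agent.Helper54.BN.E1

/-!
# Project BN, block B10, part 5: the automorphism which inverts the generators of `HB k`
-/

namespace Pool.Agent.Helper54.BN

open Pool.Agent.Helper38.BN

variable {k : ℕ}

/-- the homomorphism which inverts the generators -/
private def EH (k : ℕ) : HB k →* HB k := liftH (inv_relB (relH k))

private lemma EH_a {j : ℕ} (hj : j < k) : EH k (aH j) = (aH j)⁻¹ := liftH_a _ hj

private lemma EH_d : EH k dH = dH⁻¹ := liftH_d _

private lemma EH_comp : (EH k).comp (EH k) = MonoidHom.id _ := by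
  apply homH_ext
  · intro j hj
    rw [MonoidHom.comp_apply, EH_a hj, map_inv, EH_a hj, inv_inv, MonoidHom.id_apply]
  · rw [MonoidHom.comp_apply, EH_d, map_inv, EH_d, inv_inv, MonoidHom.id_apply]

private lemma EH_EH (x : HB k) : EH k (EH k x) = x := DFunLike.congr_fun EH_comp x

private lemma piH_EH (x : HB k) : piH k (EH k x) = piH k x := by
  have h : (piH k).comp (EH k) = piH k := by
    apply homH_ext
    · intro j hj
      rw [MonoidHom.comp_apply, EH_a hj, map_inv, piH, liftH_a _ hj]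
      exact Equiv.swap_inv _ _
    · rw [MonoidHom.comp_apply, EH_d, map_inv, piH, liftH_d, inv_one]
  exact DFunLike.congr_fun h x

private lemma EH_zz (i : ℕ) (hi : i ≤ k) : ∃ x' : F k, EH k (zz aH dH i) = zH k x' := by
  induction i with
  | zero =>
    refine ⟨(zF 0)⁻¹, ?_⟩
    rw [map_inv, zH, liftF_z _ (Nat.zero_le k)]
    exact EH_d
  | succ i ih =>
    obtain ⟨x', hx'⟩ := ih (by omega)
    refine ⟨Chi k (aH i) x', ?_⟩
    rw [← zH_conj, ← hx']
    change EH k ((aH i)⁻¹ * zz aH dH i * aH i) = _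
    rw [map_mul, map_mul, map_inv, EH_a (by omega), inv_inv]

private lemma EH_zH (x : F k) : ∃ x', EH k (zH k x) = zH k x' := by
  have hof : ∀ i : Fin (k + 1), ∃ x', EH k (zH k (FreeGroup.of i)) = zH k x' := by
    intro i
    obtain ⟨x', hx'⟩ := EH_zz (k := k) i.val (by omega)
    refine ⟨x', ?_⟩
    have h1 : (FreeGroup.of i : F k) = zF i.val := (zF_of i.isLt).symm
    rw [h1, ← hx']
    congr 1
    exact liftF_z _ (by omega)
  induction x using FreeGroup.induction_on with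
  | C1 => exact ⟨1, by simp only [map_one]⟩
  | of i => exact hof i
  | inv_of i _ =>
    obtain ⟨x', hx'⟩ := hof i
    exact ⟨x'⁻¹, by rw [map_inv, map_inv, hx', map_inv]⟩
  | mul x y hx hy =>
    obtain ⟨x', hx'⟩ := hx
    obtain ⟨y', hy'⟩ := hy
    exact ⟨x' * y', by rw [map_mul, map_mul, hx', hy', map_mul]⟩

private lemma ell_rel (k : ℕ) : RelB k (fun _ => (1 : Multiplicative ℤ))
    (Multiplicative.ofAdd 1) where
  comm _ _ _ _ := rfl
  braid _ _ := rfl
  dcomm _ _ _ := mul_comm _ _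
  four _ := by simp only [one_mul, mul_one]

/-- the exponent of the generator `d` -/
private def ell (k : ℕ) : HB k →* Multiplicative ℤ := liftH (ell_rel k)

private lemma ell_kap (j : ℕ) (hj : j ≤ k) : ell k (kap aH j) = 1 := by
  induction j with
  | zero => exact map_one _
  | succ j ih =>
    change ell k (kap aH j * aH j) = 1
    rw [map_mul, ih (by omega), one_mul, ell, liftH_a _ (by omega)]

private lemma ell_zeH (k : ℕ) : ell k (zeH k) = Multiplicative.ofAdd ((k : ℤ) + 1) := by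
  unfold zeH zeta rho
  rw [map_pow, map_mul, ell_kap k le_rfl, mul_one, ell, liftH_d, ← ofAdd_nsmul]
  simp

private lemma ell_EH (x : HB k) : ell k (EH k x) = (ell k x)⁻¹ := by
  have h : (ell k).comp (EH k) = (ell k)⁻¹ := by
    apply homH_ext
    · intro j hj
      rw [MonoidHom.comp_apply, EH_a hj, map_inv, MonoidHom.inv_apply]
    · rw [MonoidHom.comp_apply, EH_d, map_inv, MonoidHom.inv_apply]
  exact DFunLike.congr_fun h x

private lemma EH_zeH (hk : 1 ≤ k) : EH k (zeH k) = (zeH k)⁻¹ := by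
  have hc : ∀ x : HB k, EH k (zeH k) * x = x * EH k (zeH k) := by
    intro x
    have h1 := congrArg (EH k) (zeH_comm (EH k x))
    rw [map_mul, map_mul, EH_EH] at h1
    exact h1.symm
  have hchi : Chi k (EH k (zeH k)) = 1 := by
    ext1 x
    have h1 : zH k (Chi k (EH k (zeH k)) x) * zeH k ^ (0 : ℤ) = zH k x * zeH k ^ (0 : ℤ) := by
      rw [← zH_conj, hc, mul_inv_cancel_right]
    exact (zH_uniq hk h1).1
  obtain ⟨n, hn⟩ := faithful hchi
  have hn' : zeH k ^ n = EH k (zeH k) := hn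
  have h1 := congrArg (ell k) hn'
  rw [ell_EH, map_zpow, ell_zeH, ← ofAdd_zsmul, ← ofAdd_neg] at h1
  have h2 : n * ((k : ℤ) + 1) = -((k : ℤ) + 1) := by
    have h3 := Multiplicative.ofAdd.injective h1
    simpa using h3
  have h3 : n = -1 := by
    have h4 : (n + 1) * ((k : ℤ) + 1) = 0 := by linarith
    rcases mul_eq_zero.1 h4 with h5 | h5
    · omega
    · omega
  rw [← hn', h3, zpow_neg_one]

/-- piece `BNX-10`.
Proof. `E := liftH (inv_relB (relH k))`, `E (aH j) = (aH j)⁻¹`, `E dH = dH⁻¹`; `E (E x) = x` by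
`homH_ext`. `piH (E x) = piH x`: `homH_ext` (`swap⁻¹ = swap`). The set of `x : F k` with
`E (zH x) ∈ (zH k).range` is a subgroup; it contains `zF i`, by induction on `i`:
`zH (zF 0) = dH` and `zH (zF (j+1)) = (aH j)⁻¹ * zH (zF j) * aH j` (`liftF_z`, definition of `zz`),
so `E (zH (zF (j+1))) = aH j * E (zH (zF j)) * (aH j)⁻¹ = zH (Chi (aH j) x')` (`zH_conj`). So it is
everything (`FreeGroup` induction or `homF`; or `Subgroup.closure` of the `FreeGroup.of i`).
`E ζ` commutes with everything (`E` is surjective and `ζ` is central), so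
`zH (Chi (E ζ) x) = (E ζ) * zH x * (E ζ)⁻¹ = zH x`, `Chi (E ζ) = 1` (`zH_uniq` with `e = e' = 0`),
`E ζ = ζ^n` (`faithful`). The hom `ℓ : HB k → Multiplicative ℤ`, `aH j ↦ 1`, `dH ↦ ofAdd 1`
(`liftH`) has `ℓ ζ = ofAdd (k+1)` (as `ζ = (dH * kap aH k)^(k+1)`) and `ℓ (E x) = (ℓ x)⁻¹`
(`homH_ext`), so `n (k+1) = -(k+1)`, `n = -1`. -/
theorem exists_eps (hk : 1 ≤ k) : ∃ E : MulAut (HB k), (∀ x, E (E x) = x) ∧
    (∀ x, piH k (E x) = piH k x) ∧ (∀ x : F k, ∃ x', E (zH k x) = zH k x') ∧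
    E (zH k (zF 0)) = zH k (zF 0)⁻¹ ∧ E (zeH k) = (zeH k)⁻¹ := by
  refine ⟨MonoidHom.toMulEquiv (EH k) (EH k) EH_comp EH_comp, EH_EH, piH_EH, EH_zH, ?_,
    EH_zeH hk⟩
  change EH k (zH k (zF 0)) = zH k (zF 0)⁻¹
  rw [map_inv, zH, liftF_z _ (Nat.zero_le k)]
  exact EH_d

end Pool.Agent.Helper54.BN
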