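import Pool.Agent.Helper54.BN.E1
import Pool.Agent.Helper54.BN.E3
import Pool.Agent.Helper54.BN.E4
import Pool.Agent.Helper54.BN.E5

/-!
# Project BN, block B10, part 6: assembly
-/

namespace Pool.Agent.Helper54.BN

open Pool.Agent.Helper38.BN

variable {k : ℕ}

private lemma main_aux (hk : 2 ≤ k) (φ : MulAut (HB k)) {ε : ℤ} (hζ : φ (zeH k) = zeH k ^ ε)
    (hζ' : φ.symm (zeH k) = zeH k ^ ε) (hπ : ∀ x, piH k (φ x) = piH k x)
    (h1 : MF k φ.toMonoidHom) (h2 : MF k φ.symm.toMonoidHom) :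
    ∃ (ψ : MulAut (F k)) (e : F k → ℤ) (η : ℤ),
      (∀ x, φ (zH k x) = zH k (ψ x) * zeH k ^ e x) ∧
      (∀ g x, ψ (Chi k g x) = Chi k (φ g) (ψ x)) ∧ (η = 1 ∨ η = -1) ∧
      (∀ i, i ≤ k → ∃ y, ψ (zF i) = y * zF i ^ η * y⁻¹) ∧
      ∃ y, ψ (wF k) = y * wF k ^ η * y⁻¹ := by
  obtain ⟨ψ, e, he⟩ := exists_psi (by omega) φ hζ hζ' h1 h2
  have hq := fun g x => psi_equiv (by omega) he g x
  obtain ⟨η, hη, hz, hw⟩ := psi_eta hk φ hπ ψ hq
  exact ⟨ψ, e, η, he, hq, hη, hz, hw⟩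

/-- piece `BNX-11` (helper54): an automorphism of `HB k` which fixes the permutations and `ζ` and
preserves `F⟨ζ⟩` is an inner automorphism composed with a transvection -/
theorem aut_of_MF (hk : 2 ≤ k) (φ : MulAut (HB k)) (hπ : ∀ x, piH k (φ x) = piH k x)
    (hζ : φ (zeH k) = zeH k) (h1 : MF k φ.toMonoidHom) (h2 : MF k φ.symm.toMonoidHom) :
    ∃ (s : HB k) (l : ℤ), ∀ x, φ x = s * Tr k l x * s⁻¹ := by
  have hζ0 : φ.symm (zeH k) = zeH k := by
    rw [MulEquiv.symm_apply_eq]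
    exact hζ.symm
  obtain ⟨ψ, e, η, he, hq, hη, hz, hw⟩ :=
    main_aux hk φ (ε := 1) (by rw [hζ, zpow_one]) (by rw [hζ0, zpow_one]) hπ h1 h2
  rcases hη with rfl | rfl
  · obtain ⟨s, l, q, h3, h4, h5⟩ := core1 φ (ε := 1) (by rw [hζ, zpow_one]) ψ hq
      (fun i hi => by simpa using hz i hi) (by simpa using hw)
    have hq0 : q = -(k : ℤ) * l := by
      have h6 : ((k : ℤ) + 1) * ((k : ℤ) * l + q) = 0 := by linarith
      rcases mul_eq_zero.1 h6 with h7 | h7
      · omega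
      · linarith
    refine ⟨s, l, fun x => ?_⟩
    have h6 : φ.toMonoidHom = (MulAut.conj s).toMonoidHom.comp (Tr k l) := by
      apply homH_ext
      · intro j hj
        have h7 : Tr k l (aH j) = aH j * zeH k ^ l := liftH_a _ hj
        rw [MonoidHom.comp_apply, h7]
        exact h4 j hj
      · have h7 : Tr k l dH = dH * zeH k ^ (-(k : ℤ) * l) := liftH_d _
        rw [MonoidHom.comp_apply, h7, ← hq0]
        exact h5
    exact DFunLike.congr_fun h6 x
  · exfalso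
    obtain ⟨E, hE1, hE2, hE3, hE4, hE5⟩ := exists_eps (k := k) (by omega)
    have hEs : ∀ x, E.symm x = E x := by
      intro x
      rw [MulEquiv.symm_apply_eq, hE1]
    have hφ2 : ∀ x, (φ * E) x = φ (E x) := fun x => rfl
    have hφ2' : ∀ x, (φ * E).symm x = E (φ.symm x) := by
      intro x
      rw [MulEquiv.symm_apply_eq, hφ2, hE1, MulEquiv.apply_symm_apply]
    have hEz : ∀ (x : F k) (n : ℤ), ∃ x', E (zH k x * zeH k ^ n) = zH k x' * zeH k ^ (-n) := by
      intro x n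
      obtain ⟨x', hx'⟩ := hE3 x
      refine ⟨x', ?_⟩
      rw [map_mul, map_zpow, hx', hE5, inv_zpow', ]
    obtain ⟨ψ2, e2, η2, he2, hq2, hη2, hz2, hw2⟩ :=
      main_aux hk (φ * E) (ε := -1) (by rw [hφ2, hE5, map_inv, hζ, zpow_neg_one])
        (by rw [hφ2', hζ0, hE5, zpow_neg_one])
        (fun x => by rw [hφ2, hπ, hE2])
        (fun x => by
          obtain ⟨x', hx'⟩ := hE3 x
          obtain ⟨x'', n, hx''⟩ := h1 x'
          refine ⟨x'', n, ?_⟩
          change φ (E (zH k x)) = _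
          rw [hx']
          exact hx'')
        (fun x => by
          obtain ⟨x', n, hx'⟩ := h2 x
          obtain ⟨x'', hx''⟩ := hEz x' n
          refine ⟨x'', -n, ?_⟩
          change (φ * E).symm (zH k x) = _
          have hx1 : φ.symm (zH k x) = zH k x' * zeH k ^ n := hx'
          rw [hφ2', hx1, hx''])
    have h3 : ψ2 (zF 0) = (ψ (zF 0))⁻¹ := by
      have h4 := he2 (zF 0)
      rw [hφ2, hE4, he] at h4
      rw [← (zH_uniq (by omega) h4).1, map_inv]
    have h4 : ∀ (χ : MulAut (F k)) (n : ℤ), (∃ y, χ (zF 0) = y * zF 0 ^ n * y⁻¹) →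
        exF k 0 (χ (zF 0)) = Multiplicative.ofAdd n := by
      rintro χ n ⟨y, hy⟩
      rw [hy, exF_conj, map_zpow, exF_z 0 (Nat.zero_le k), if_pos rfl, ← ofAdd_zsmul]
      simp
    have h5 := h4 ψ2 η2 (hz2 0 (Nat.zero_le k))
    have h6 := h4 ψ (-1) (hz 0 (Nat.zero_le k))
    rw [h3, map_inv, h6, ← ofAdd_neg] at h5
    have h7 : η2 = 1 := by
      have h8 := Multiplicative.ofAdd.injective h5
      omega
    subst h7
    obtain ⟨s, l, q, h8, -, -⟩ := core1 (φ * E) (ε := -1)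
      (by rw [hφ2, hE5, map_inv, hζ, zpow_neg_one]) ψ2 hq2
      (fun i hi => by simpa using hz2 i hi) (by simpa using hw2)
    have h9 : ((k : ℤ) + 1) ∣ 2 := ⟨-((k : ℤ) * l + q), by linarith⟩
    have h10 := Int.le_of_dvd (by norm_num) h9
    have : (2 : ℤ) ≤ k := by exact_mod_cast hk
    linarith

private lemma case_one (hk : 2 ≤ k)
    (hdich : ∀ φ : MulAut (HB k), (∀ x, piH k (φ x) = piH k x) → φ (zeH k) = zeH k →
      MF k φ.toMonoidHom ∨ MF k (φ.toMonoidHom.comp (Sp k)))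
    (hnot : ¬ MF k (Sp k)) (φ : MulAut (HB k)) (hπ : ∀ x, piH k (φ x) = piH k x)
    (hζ : φ (zeH k) = zeH k) (h1 : MF k φ.toMonoidHom) :
    ∃ (s : HB k) (l : ℤ), ∀ x, φ x = s * Tr k l x * s⁻¹ := by
  have hζ0 : φ.symm (zeH k) = zeH k := by
    rw [MulEquiv.symm_apply_eq]
    exact hζ.symm
  have hπ0 : ∀ x, piH k (φ.symm x) = piH k x := by
    intro x
    rw [← hπ (φ.symm x), MulEquiv.apply_symm_apply]
  rcases hdich φ.symm hπ0 hζ0 with h2 | h2
  · exact aut_of_MF hk φ hπ hζ h1 h2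
  · exfalso
    apply hnot
    intro x
    obtain ⟨x', n, hx'⟩ := h2 x
    obtain ⟨x'', n', hx''⟩ := h1 x'
    have h3 : φ.symm (Sp k (zH k x)) = zH k x' * zeH k ^ n := hx'
    have h4 : φ (zH k x') = zH k x'' * zeH k ^ n' := hx''
    refine ⟨x'', n' + n, ?_⟩
    rw [MulEquiv.symm_apply_eq] at h3
    rw [h3, map_mul, h4, map_zpow, hζ, zpow_add, mul_assoc]

/-- piece `BNX-12` (helper54): the automorphisms of `HB k` which fix the permutations and `ζ` -/
theorem aut_H_of (hk : 2 ≤ k)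
    (hSS : ∀ x, Sp k (Sp k x) = x) (hSz : Sp k (zeH k) = zeH k)
    (hpS : ∀ x, piH k (Sp k x) = piH k x)
    (hdich : ∀ φ : MulAut (HB k), (∀ x, piH k (φ x) = piH k x) → φ (zeH k) = zeH k →
      MF k φ.toMonoidHom ∨ MF k (φ.toMonoidHom.comp (Sp k)))
    (hnot : ¬ MF k (Sp k)) (φ : MulAut (HB k)) (hπ : ∀ x, piH k (φ x) = piH k x)
    (hζ : φ (zeH k) = zeH k) :
    ∃ (s : HB k) (l : ℤ), (∀ x, φ x = s * Tr k l x * s⁻¹) ∨
      (∀ x, φ x = s * Tr k l (Sp k x) * s⁻¹) := by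
  rcases hdich φ hπ hζ with h1 | h1
  · obtain ⟨s, l, h⟩ := case_one hk hdich hnot φ hπ hζ h1
    exact ⟨s, l, Or.inl h⟩
  · let S : MulAut (HB k) :=
      { toFun := Sp k
        invFun := Sp k
        left_inv := hSS
        right_inv := hSS
        map_mul' := map_mul _ }
    obtain ⟨s, l, h⟩ := case_one hk hdich hnot (φ * S)
      (fun x => by
        change piH k (φ (Sp k x)) = _
        rw [hπ, hpS])
      (by
        change φ (Sp k (zeH k)) = _
        rw [hSz, hζ]) h1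
    refine ⟨s, l, Or.inr fun x => ?_⟩
    have h2 := h (Sp k x)
    have h3 : (φ * S) (Sp k x) = φ x := by
      change φ (Sp k (Sp k x)) = _
      rw [hSS]
    rw [← h3, h2]

end Pool.Agent.Helper54.BN
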