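import Pool.Agent.Helper38.BN.IntH
import Pool.Agent.Helper38.BN.PiF

/-!
# Project BN, block B10, part 2: exponents
-/

namespace Pool.Agent.Helper54.BN

open Pool.Agent.Helper38.BN

variable {k : ℕ}

/-- the exponent of `z_j` -/
def exF (k j : ℕ) : F k →* Multiplicative ℤ :=
  liftF (fun i => if i = j then Multiplicative.ofAdd 1 else 1)

lemma exF_z {i : ℕ} (j : ℕ) (hi : i ≤ k) :
    exF k j (zF i) = if i = j then Multiplicative.ofAdd 1 else 1 := liftF_z _ hi

lemma exF_conj (j : ℕ) (g x : F k) : exF k j (g * x * g⁻¹) = exF k j x := by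
  rw [map_mul, map_mul, map_inv, mul_comm (exF k j g), mul_inv_cancel_right]

/-- piece `BNX-2`. Proof: for `i ≤ k`, `exF k j (wF i) = if j ≤ i then ofAdd 1 else 1`, by
induction on `i` with `exF_z`. -/
theorem exF_w {j : ℕ} (hj : j ≤ k) : exF k j (wF k) = Multiplicative.ofAdd 1 := by
  have h : ∀ i, i ≤ k → exF k j (wF i) = if j ≤ i then Multiplicative.ofAdd (1 : ℤ) else 1 := by
    intro i
    induction i with
    | zero =>
      intro _
      change exF k j (zF 0) = _
      rw [exF_z j (Nat.zero_le k)]
      by_cases h0 : 0 = j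
      · rw [if_pos h0, if_pos (by omega)]
      · rw [if_neg h0, if_neg (by omega)]
    | succ i ih =>
      intro hi
      change exF k j (zF (i + 1) * wF i) = _
      rw [map_mul, exF_z j hi, ih (by omega)]
      by_cases h0 : i + 1 = j
      · rw [if_pos h0, if_neg (by omega), if_pos (by omega), mul_one]
      · rw [if_neg h0, one_mul]
        by_cases h1 : j ≤ i
        · rw [if_pos h1, if_pos (by omega)]
        · rw [if_neg h1, if_neg (by omega)]
  rw [h k le_rfl, if_pos hj]

private lemma E2_chi_d : Chi k dH = chiD := liftH_d _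

private lemma E2_pi_d : piH k dH = 1 := liftH_d _

private lemma E2_chi_a {i : ℕ} (hi : i < k) : Chi k (aH i) = chiA i := liftH_a _ hi

private lemma E2_pi_a {i : ℕ} (hi : i < k) : piH k (aH i) = Equiv.swap i (i + 1) := liftH_a _ hi

private lemma E2_ind (p : HB k → Prop) (hd : p dH) (ha : ∀ i, i < k → p (aH i)) (h1 : p 1)
    (hm : ∀ g g', p g → p g' → p (g * g')) (hi : ∀ g, p g → p g⁻¹) (g : HB k) : p g := by
  have hg : g ∈ Subgroup.closure ({dH} ∪ aH '' {j | j < k} : Set (HB k)) := by
    rw [closure_H]
    exact Subgroup.mem_top g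
  induction hg using Subgroup.closure_induction with
  | mem x hx =>
    rcases hx with rfl | ⟨j, hj, rfl⟩
    · exact hd
    · exact ha j hj
  | one => exact h1
  | mul x y _ _ hx hy => exact hm x y hx hy
  | inv x _ hx => exact hi x hx

private lemma E2_exF_a {i : ℕ} (hi : i < k) (j : ℕ) (x : F k) :
    exF k (Equiv.swap i (i + 1) j) (chiA i x) = exF k j x := by
  have h : (exF k (Equiv.swap i (i + 1) j)).comp (chiA i : MulAut (F k)).toMonoidHom = exF k j := by
    apply homF_ext
    intro l hl
    change exF k (Equiv.swap i (i + 1) j) (chiA i (zF l)) = _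
    rw [chiA_z hi hl, exF_z j hl]
    unfold chiC
    by_cases h1 : l = i
    · rw [if_pos h1, map_mul, map_mul, map_inv, mul_right_comm, inv_mul_cancel, one_mul,
        exF_z _ (show i + 1 ≤ k by omega)]
      by_cases h2 : l = j
      · rw [if_pos h2, if_pos (by rw [← h2, h1, Equiv.swap_apply_left])]
      · rw [if_neg h2, if_neg]
        intro h3
        have h4 := congrArg (Equiv.swap i (i + 1)) h3
        rw [Equiv.swap_apply_right, Equiv.swap_apply_self] at h4
        exact h2 (by omega)
    · rw [if_neg h1]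
      by_cases h2 : l = i + 1
      · rw [if_pos h2, exF_z _ (show i ≤ k by omega)]
        by_cases h3 : l = j
        · rw [if_pos h3, if_pos (by rw [← h3, h2, Equiv.swap_apply_right])]
        · rw [if_neg h3, if_neg]
          intro h4
          have h5 := congrArg (Equiv.swap i (i + 1)) h4
          rw [Equiv.swap_apply_left, Equiv.swap_apply_self] at h5
          exact h3 (by omega)
      · rw [if_neg h2, exF_z _ hl]
        by_cases h3 : l = j
        · rw [if_pos h3, if_pos (by rw [← h3, Equiv.swap_apply_of_ne_of_ne h1 h2])]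
        · rw [if_neg h3, if_neg]
          intro h4
          have h5 := congrArg (Equiv.swap i (i + 1)) h4
          rw [Equiv.swap_apply_of_ne_of_ne h1 h2, Equiv.swap_apply_self] at h5
          exact h3 h5
  exact DFunLike.congr_fun h x

/-- piece `BNX-2`: the action permutes the exponents.
Proof. The set of all `g` for which this holds for all `j` and `x` is a subgroup (`mul`:
`Chi (g g') x = Chi g (Chi g' x)`, `piH (g g') j = piH g (piH g' j)`; `inv`: apply it to
`piH g⁻¹ j` and `Chi g⁻¹ x`). It contains the generators (`closure_H`): for `dH`: `Chi k dH = chiD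
= conj z_0`, `piH k dH = 1`; for `aH i`, `i < k`: `Chi k (aH i) = chiA i`, `piH k (aH i) =
swap i (i+1)` (`liftH_a`); compare the two homs in `x` on `zF l` (`homF_ext`, `chiA_z`, unfold
`chiC`, `exF_z`). -/
theorem exF_chi (g : HB k) (j : ℕ) (x : F k) :
    exF k (piH k g j) (Chi k g x) = exF k j x := by
  have key : ∀ g : HB k, ∀ (j : ℕ) (x : F k), exF k (piH k g j) (Chi k g x) = exF k j x := by
    refine E2_ind _ ?_ ?_ ?_ ?_ ?_
    · intro j x
      rw [E2_chi_d, E2_pi_d]
      change exF k j (zF 0 * x * (zF 0)⁻¹) = _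
      rw [exF_conj]
    · intro i hi j x
      rw [E2_chi_a hi, E2_pi_a hi]
      exact E2_exF_a hi j x
    · intro j x
      rw [map_one, map_one]
      rfl
    · intro g g' hg hg' j x
      rw [map_mul, map_mul]
      change exF k (piH k g (piH k g' j)) (Chi k g (Chi k g' x)) = _
      rw [hg, hg']
    · intro g hg j x
      have h1 : piH k g (piH k g⁻¹ j) = j := by
        rw [map_inv]
        exact Equiv.apply_symm_apply _ _
      have h2 : Chi k g (Chi k g⁻¹ x) = x := by
        rw [map_inv]
        exact MulAut.apply_inv_self _ _ _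
      have h3 := hg (piH k g⁻¹ j) (Chi k g⁻¹ x)
      rw [h1, h2] at h3
      exact h3.symm
  exact key g j x

/-- piece `BNX-2`: the action maps `z_i` to a conjugate of `z_{π(i)}`.
Proof. As before: a subgroup (for `inv` note that `piH k g` is a permutation which maps
`{0, …, k}` into itself for all `g`, for `g⁻¹` too if one proves the two-sided statement for `g`
and `g⁻¹` together or uses that the generators and their inverses are handled by
`Subgroup.closure_induction''` or `closure_toSubmonoid`). -/
theorem chi_z_conj (g : HB k) {i : ℕ} (hi : i ≤ k) :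
    piH k g i ≤ k ∧ ∃ c, Chi k g (zF i) = c * zF (piH k g i) * c⁻¹ := by
  have key : ∀ g : HB k, ∀ i : ℕ, i ≤ k →
      piH k g i ≤ k ∧ ∃ c, Chi k g (zF i) = c * zF (piH k g i) * c⁻¹ := by
    refine E2_ind _ ?_ ?_ ?_ ?_ ?_
    · intro i hi
      rw [E2_chi_d, E2_pi_d]
      exact ⟨hi, zF 0, rfl⟩
    · intro l hl i hi
      rw [E2_chi_a hl, E2_pi_a hl, chiA_z hl hi]
      unfold chiC
      by_cases h1 : i = l
      · rw [if_pos h1, h1, Equiv.swap_apply_left]
        exact ⟨by omega, (zF l)⁻¹, by rw [inv_inv]⟩
      · rw [if_neg h1]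
        by_cases h2 : i = l + 1
        · rw [if_pos h2, h2, Equiv.swap_apply_right]
          exact ⟨by omega, 1, by simp⟩
        · rw [if_neg h2, Equiv.swap_apply_of_ne_of_ne h1 h2]
          exact ⟨hi, 1, by simp⟩
    · intro i hi
      rw [map_one, map_one]
      exact ⟨hi, 1, by simp⟩
    · intro g g' hg hg' i hi
      obtain ⟨h1, c, hc⟩ := hg' i hi
      obtain ⟨h2, c', hc'⟩ := hg _ h1
      rw [map_mul, map_mul]
      refine ⟨h2, Chi k g c * c', ?_⟩
      change Chi k g (Chi k g' (zF i)) = Chi k g c * c' * zF (piH k g (piH k g' i)) * _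
      rw [hc, map_mul, map_mul, map_inv, hc', mul_inv_rev]
      simp only [mul_assoc]
    · intro g hg i hi
      have himg : (Finset.range (k + 1)).image (piH k g) = Finset.range (k + 1) := by
        apply Finset.eq_of_subset_of_card_le
        · intro y hy
          obtain ⟨x, hx, rfl⟩ := Finset.mem_image.mp hy
          have := (hg x (by have := Finset.mem_range.mp hx; omega)).1
          exact Finset.mem_range.mpr (by omega)
        · rw [Finset.card_image_of_injective _ (piH k g).injective]
      have him : i ∈ (Finset.range (k + 1)).image (piH k g) := by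
        rw [himg]
        exact Finset.mem_range.mpr (by omega)
      obtain ⟨i', hi', he⟩ := Finset.mem_image.mp him
      have hik : i' ≤ k := by have := Finset.mem_range.mp hi'; omega
      obtain ⟨_, c, hc⟩ := hg i' hik
      have h1 : piH k g⁻¹ i = i' := by
        rw [map_inv, ← he]
        exact Equiv.symm_apply_apply _ _
      rw [h1]
      refine ⟨hik, (Chi k g⁻¹ c)⁻¹, ?_⟩
      rw [he] at hc
      have h2 : Chi k g⁻¹ (Chi k g (zF i')) = zF i' := by
        rw [map_inv]
        exact MulAut.inv_apply_self _ _ _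
      rw [hc] at h2
      have h3 : Chi k g⁻¹ (c * zF i * c⁻¹) =
          Chi k g⁻¹ c * Chi k g⁻¹ (zF i) * (Chi k g⁻¹ c)⁻¹ := by
        simp only [map_mul (Chi k g⁻¹), map_inv (Chi k g⁻¹)]
      rw [h3] at h2
      rw [← h2, inv_inv]
      simp only [mul_assoc, inv_mul_cancel_left, inv_mul_cancel, mul_one]
  exact key g i hi

private lemma piH_fold (m : ℕ) (x : A m) : piH (m + 2) (fold m x) = piA m x := by
  have h : (piH (m + 2)).comp (fold m) = piA m := by
    apply homA_ext
    · intro j hj
      rw [MonoidHom.comp_apply]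
      unfold fold piH piA
      rw [liftA_a _ hj, liftH_a _ hj, liftA_a _ hj]
    · rw [MonoidHom.comp_apply]
      unfold fold piH piA
      rw [liftA_b, liftH_a _ (by omega), liftA_b]
    · rw [MonoidHom.comp_apply]
      unfold fold piH piA
      rw [liftA_d, liftH_d, liftA_d]
  rw [← h]
  rfl

private lemma perm_two {α : Type*} [DecidableEq α] {i j i' j' : α} (h : i ≠ j) (h' : i' ≠ j') :
    ∃ e : Equiv.Perm α, e i = i' ∧ e j = j' := by
  have h1 : Equiv.swap i i' j ≠ i' := by
    intro e
    have := (Equiv.swap i i').injective (e.trans (Equiv.swap_apply_left i i').symm)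
    exact h this.symm
  refine ⟨Equiv.swap (Equiv.swap i i' j) j' * Equiv.swap i i', ?_, ?_⟩
  · rw [Equiv.Perm.mul_apply, Equiv.swap_apply_left]
    exact Equiv.swap_apply_of_ne_of_ne h1.symm h'
  · rw [Equiv.Perm.mul_apply, Equiv.swap_apply_left]

/-- piece `BNX-3`: the strands are permuted 2-transitively.
Proof. Write `k = m + 2`. There is `e : Equiv.Perm (Fin (m + 3))` with `e i = i'`, `e j = j'`
(`swap`s; or `MulAction.is_two_pretransitive` of `Equiv.Perm`), `x : A m` with `piF m x = e`
(`piF_surj`), so `piA m x i = i'`, `piA m x j = j'` (`piA_apply_eq`, `extF_apply`), and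
`piH (m+2) (fold m x) = piA m x` (`homA_ext`, `liftA_a`, `liftH_a`). -/
theorem piH_two (hk : 2 ≤ k) {i j i' j' : ℕ} (hi : i ≤ k) (hj : j ≤ k) (hi' : i' ≤ k)
    (hj' : j' ≤ k) (h : i ≠ j) (h' : i' ≠ j') : ∃ g : HB k, piH k g i = i' ∧ piH k g j = j' := by
  obtain ⟨m, rfl⟩ : ∃ m, k = m + 2 := ⟨k - 2, by omega⟩
  obtain ⟨e, he, he'⟩ := perm_two (i := (⟨i, by omega⟩ : Fin (m + 3))) (j := ⟨j, by omega⟩)
    (i' := ⟨i', by omega⟩) (j' := ⟨j', by omega⟩) (fun h0 => h (by simpa using h0))
    (fun h0 => h' (by simpa using h0))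
  obtain ⟨x, hx⟩ := piF_surj (m := m) e
  refine ⟨fold m x, ?_, ?_⟩
  · rw [piH_fold, piA_apply_eq, hx, extF_apply _ (by omega), he]
  · rw [piH_fold, piA_apply_eq, hx, extF_apply _ (by omega), he']

end Pool.Agent.Helper54.BN
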