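import Pool.Agent.Helper38.BN.IntH
import Pool.Agent.Helper38.BN.IntP

/-!
# Project BN, block B10, part 1: the induced automorphism of `F k`

`k ≥ 1` strands exchanges; `HB k` is the Artin group of type `B_{k+1}`, `zH : F k → HB k` the normal
free subgroup, `zeH k` the central element `ζ`.
-/

namespace Pool.Agent.Helper54.BN

open Pool.Agent.Helper38.BN

variable {k : ℕ}

/-- `φ` maps `F` into `F⟨ζ⟩` (the same definition as `Helper38.BN.MapsF`) -/
def MF (k : ℕ) (φ : HB k →* HB k) : Prop :=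
  ∀ x : F k, ∃ (x' : F k) (e : ℤ), φ (zH k x) = zH k x' * zeH k ^ e

/-- piece `BNX-1`: the decomposition is unique.
Proof. Apply `Chi k`: `MulAut.conj x = MulAut.conj x'` (`chi_zH`, `chi_zeta`, `map_zpow`), so
`x'⁻¹ * x` commutes with everything and is `1` by `F_center` (write `k = k' + 1`). Then
`ζ^e = ζ^e'`, `ζ^(e - e') = 1`, `zeH_pow`. -/
theorem zH_uniq (hk : 1 ≤ k) {x x' : F k} {e e' : ℤ}
    (h : zH k x * zeH k ^ e = zH k x' * zeH k ^ e') : x = x' ∧ e = e' := by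
  obtain ⟨k, rfl⟩ : ∃ k', k = k' + 1 := ⟨k - 1, by omega⟩
  have h1 := congrArg (Chi (k + 1)) h
  rw [map_mul, map_mul, map_zpow, map_zpow, chi_zeta, one_zpow, one_zpow, mul_one, mul_one, chi_zH,
    chi_zH] at h1
  have h2 : x'⁻¹ * x = 1 := by
    refine F_center fun y => ?_
    have h3 : x * y * x⁻¹ = x' * y * x'⁻¹ := by
      have := DFunLike.congr_fun h1 y
      simpa [MulAut.conj_apply] using this
    have h4 : x * y = x' * y * x'⁻¹ * x := by rw [← h3]; group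
    calc x'⁻¹ * x * y = x'⁻¹ * (x * y) := by group
      _ = x'⁻¹ * (x' * y * x'⁻¹ * x) := by rw [h4]
      _ = y * (x'⁻¹ * x) := by group
  have h5 : x = x' := (inv_mul_eq_one.1 h2).symm
  subst h5
  refine ⟨rfl, ?_⟩
  have h6 : zeH (k + 1) ^ e = zeH (k + 1) ^ e' := mul_left_cancel h
  have h7 : zeH (k + 1) ^ (e - e') = 1 := by rw [zpow_sub, h6, mul_inv_cancel]
  have := zeH_pow h7
  omega

private lemma bnx_comm (e : ℤ) (h : HB k) : zeH k ^ e * h = h * zeH k ^ e :=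
  ((show Commute h (zeH k) from zeH_comm h).zpow_right e).eq.symm

/-- piece `BNX-1`: the induced automorphism.
Proof. Choose `ψ x`, `e x` for `φ` and `ψ' x`, `e' x` for `φ.symm` (`choose`). As `ζ` is central
(`zeH_comm`), `φ (zH (x * y)) = zH (ψ x * ψ y) * ζ^(e x + e y)`, so `ψ (x * y) = ψ x * ψ y` by
`zH_uniq`; and `zH x = φ (φ.symm (zH x)) = φ (zH (ψ' x) * ζ^(e' x)) = zH (ψ (ψ' x)) * ζ^(…)` gives
`ψ (ψ' x) = x`; in the same way `ψ' (ψ x) = x`. -/
theorem exists_psi (hk : 1 ≤ k) (φ : MulAut (HB k)) {ε : ℤ} (hζ : φ (zeH k) = zeH k ^ ε)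
    (hζ' : φ.symm (zeH k) = zeH k ^ ε) (h1 : MF k φ.toMonoidHom)
    (h2 : MF k φ.symm.toMonoidHom) :
    ∃ (ψ : MulAut (F k)) (e : F k → ℤ), ∀ x, φ (zH k x) = zH k (ψ x) * zeH k ^ e x := by
  choose ψ e he using h1
  choose ψ' e' he' using h2
  have he1 : ∀ x, φ (zH k x) = zH k (ψ x) * zeH k ^ e x := he
  have he2 : ∀ x, φ.symm (zH k x) = zH k (ψ' x) * zeH k ^ e' x := he'
  have hm : ∀ x y, ψ (x * y) = ψ x * ψ y := by
    intro x y
    have h3 : zH k (ψ (x * y)) * zeH k ^ e (x * y) = zH k (ψ x * ψ y) * zeH k ^ (e x + e y) := by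
      rw [← he1, map_mul, map_mul, he1, he1, map_mul, zpow_add]
      calc zH k (ψ x) * zeH k ^ e x * (zH k (ψ y) * zeH k ^ e y)
          = zH k (ψ x) * (zeH k ^ e x * zH k (ψ y)) * zeH k ^ e y := by group
        _ = zH k (ψ x) * (zH k (ψ y) * zeH k ^ e x) * zeH k ^ e y := by rw [bnx_comm]
        _ = _ := by group
    exact (zH_uniq hk h3).1
  have hl : ∀ x, ψ (ψ' x) = x := by
    intro x
    have h3 : φ (φ.symm (zH k x)) = zH k x := MulEquiv.apply_symm_apply _ _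
    rw [he2, map_mul, map_zpow, hζ, he1, ← zpow_mul, mul_assoc, ← zpow_add] at h3
    have h4 : zH k (ψ (ψ' x)) * zeH k ^ (e (ψ' x) + ε * e' x) = zH k x * zeH k ^ (0 : ℤ) := by
      rw [h3, zpow_zero, mul_one]
    exact (zH_uniq hk h4).1
  have hr : ∀ x, ψ' (ψ x) = x := by
    intro x
    have h3 : φ.symm (φ (zH k x)) = zH k x := MulEquiv.symm_apply_apply _ _
    rw [he1, map_mul, map_zpow, hζ', he2, ← zpow_mul, mul_assoc, ← zpow_add] at h3
    have h4 : zH k (ψ' (ψ x)) * zeH k ^ (e' (ψ x) + ε * e x) = zH k x * zeH k ^ (0 : ℤ) := by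
      rw [h3, zpow_zero, mul_one]
    exact (zH_uniq hk h4).1
  exact ⟨{ toFun := ψ, invFun := ψ', left_inv := hr, right_inv := hl, map_mul' := hm }, e, he1⟩

/-- piece `BNX-1`: equivariance.
Proof. `φ (zH (Chi g x)) = φ (g * zH x * g⁻¹)` (`zH_conj`) `= φ g * zH (ψ x) * ζ^e * (φ g)⁻¹
= zH (Chi (φ g) (ψ x)) * ζ^e`; `zH_uniq`. -/
theorem psi_equiv (hk : 1 ≤ k) {φ : MulAut (HB k)} {ψ : MulAut (F k)} {e : F k → ℤ}
    (h : ∀ x, φ (zH k x) = zH k (ψ x) * zeH k ^ e x) (g : HB k) (x : F k) :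
    ψ (Chi k g x) = Chi k (φ g) (ψ x) := by
  have h1 : zH k (ψ (Chi k g x)) * zeH k ^ e (Chi k g x)
      = zH k (Chi k (φ g) (ψ x)) * zeH k ^ e x := by
    rw [← h, ← zH_conj, map_mul, map_mul, map_inv, h, ← zH_conj]
    calc φ g * (zH k (ψ x) * zeH k ^ e x) * (φ g)⁻¹
        = φ g * zH k (ψ x) * (zeH k ^ e x * (φ g)⁻¹) := by group
      _ = φ g * zH k (ψ x) * ((φ g)⁻¹ * zeH k ^ e x) := by rw [bnx_comm]
      _ = _ := by group
  exact (zH_uniq hk h1).1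

end Pool.Agent.Helper54.BN
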